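import Pool.Agent.H218R3.Col6

set_option autoImplicit false

open Polynomial

namespace Pool.Agent.Results.MP_af3a4a_an.CollinearZeros

/-- Borcea's inequality for every exponent `p ≥ 1`, every centre `c` and every zero `z k`, if all
zeros lie on a line. -/
theorem result (n : ℕ) (hn : 2 ≤ n) (z : Fin n → ℂ)
    (hline : ∃ b u : ℂ, ∀ j, ∃ t : ℝ, z j = b + t * u) (p : ℝ) (hp : 1 ≤ p) (c : ℂ) (k : Fin n) :
    ∃ w : ℂ, (derivative (∏ j : Fin n, (X - C (z j)))).IsRoot w ∧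
      ‖z k - w‖ ≤ ((1 / (n : ℝ)) * ∑ j : Fin n, ‖z j - c‖ ^ p) ^ (1 / p) :=
  Pool.Agent.H218R3.Col.borcea_fin hn z hline hp c k

end Pool.Agent.Results.MP_af3a4a_an.CollinearZeros
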